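import Pool.Agent.Helper17.QD.Glue

/-!
# Project QD, glue, module BER: every quasifuchsian representation is a state up to conjugation
-/

set_option autoImplicit false

open Filter Topology Matrix Set Metric MeasureTheory
open scoped ComplexConjugate ComplexOrder ENNReal

namespace Pool.Agent.Helper70.QL

open Pool.Agent.Helper17.QD Pool.Agent.Helper35.PM
open Pool.Agent.Helper68.QC (nq Bel InvB Intw offS mu0)
open Pool.Agent.Helper20.QD (Fuch cj IsSU D DD SS dz dzb mob den Bers CC)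

private lemma mob_offS {A : SL} (hA : IsSU A) {z : ℂ} (hz : ‖z‖ ≠ 1) (hd : den A z ≠ 0) :
    ‖mob A z‖ ≠ 1 := by
  intro h
  have hdet : (A : Mat) 0 0 * conj ((A : Mat) 0 0) - (A : Mat) 0 1 * conj ((A : Mat) 0 1) = 1 := by
    have h := A.2
    rw [Matrix.det_fin_two, hA.1, hA.2] at h
    exact h
  have h1 : ‖(A : Mat) 0 0 * z + (A : Mat) 0 1‖ = ‖den A z‖ := by
    unfold mob at h
    have hd' : (A : Mat) 1 0 * z + (A : Mat) 1 1 ≠ 0 := hd
    rw [norm_div, div_eq_one_iff_eq (norm_ne_zero_iff.2 hd')] at h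
    exact h
  have h2 : ((A : Mat) 0 0 * z + (A : Mat) 0 1) * conj ((A : Mat) 0 0 * z + (A : Mat) 0 1) =
      den A z * conj (den A z) := by
    rw [Complex.mul_conj, Complex.mul_conj, Complex.normSq_eq_norm_sq, Complex.normSq_eq_norm_sq,
      h1]
  have h3 : z * conj z = 1 := by
    unfold den at h2
    rw [hA.1, hA.2] at h2
    simp only [map_add, map_mul, Complex.conj_conj] at h2
    linear_combination h2 - (z * conj z - 1) * hdet
  apply hz
  rw [Complex.mul_conj, Complex.normSq_eq_norm_sq] at h3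
  have h4 : ‖z‖ ^ 2 = 1 := by exact_mod_cast h3
  have h5 := norm_nonneg z
  nlinarith

theorem hBER (hWNO : Pool.Agent.Helper20.QD.StWNO) (hRIJ : Pool.Agent.Helper20.QD.StRIJ)
    (hSUB : Pool.Agent.Helper20.QD.StSUB) (hWSL : Pool.Agent.Helper68.QC.StWSL)
    (hINB : Pool.Agent.Helper68.QC.StINB) (hTMI : StTMI) : StBER := by
  intro g _ hσ0 ρ hρ
  obtain ⟨B, σ, τ, W, f, E, k, hb⟩ := hWNO (SurfaceGroup g) ρ ⟨hρ.discrete, hρ.cocompact⟩
    hρ.jordan (Or.inr hσ0)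
  have hopen : IsOpen {z : ℂ | 1 < ‖z‖} := isOpen_lt continuous_const continuous_norm
  have hholo : ∀ z : ℂ, 1 < ‖z‖ → DifferentiableAt ℂ W z := fun z hz =>
    hb.hol.differentiableAt (hopen.mem_nhds hz)
  have hder : ∀ z : ℂ, 1 < ‖z‖ → deriv W z ≠ 0 := fun z hz =>
    (hRIJ {z : ℂ | 1 < ‖z‖} W hopen hb.hol hb.homeo.injective.injOn).1 z hz
  have hC1 : ContDiffOn ℝ 1 W offS := by
    intro z hz
    rcases lt_or_gt_of_ne (show ‖z‖ ≠ 1 from hz) with h | h
    · have hzD : z ∈ D := mem_ball_zero_iff.2 h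
      exact (hb.c1.contDiffAt (isOpen_ball.mem_nhds hzD)).contDiffWithinAt
    · have h1 : ContDiffOn ℂ 1 W {z : ℂ | 1 < ‖z‖} := hb.hol.contDiffOn hopen
      exact ((h1.contDiffAt (hopen.mem_nhds h)).restrict_scalars ℝ).contDiffWithinAt
  have hdil : ∀ z ∈ offS, Pool.Agent.Helper68.QC.dz W z ≠ 0 ∧
      ‖Pool.Agent.Helper68.QC.dzb W z‖ ≤ k * ‖Pool.Agent.Helper68.QC.dz W z‖ := by
    intro z hz
    rcases lt_or_gt_of_ne (show ‖z‖ ≠ 1 from hz) with h | h
    · exact hb.dil z (mem_ball_zero_iff.2 h)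
    · rw [Pool.Agent.Helper68.QC.dz_holo (hholo z h), Pool.Agent.Helper68.QC.dzb_holo (hholo z h),
        norm_zero]
      exact ⟨hder z h, mul_nonneg hb.k0 (norm_nonneg _)⟩
  obtain ⟨hbel, -, hform⟩ := hWSL k W hb.k0 hb.k1 hb.homeo hC1 hdil
  have hα : W 1 - W 0 ≠ 0 := sub_ne_zero.2 fun h => one_ne_zero (hb.homeo.injective h)
  obtain ⟨s, hs⟩ := IsAlgClosed.exists_pow_nat_eq (W 1 - W 0) (n := 2) (by norm_num)
  have hs0 : s ≠ 0 := by
    rintro rfl
    exact hα (by rw [← hs]; simp)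
  obtain ⟨M, hM⟩ : ∃ M : SL, (M : Mat) = !![s⁻¹, -W 0 * s⁻¹; 0, s] :=
    ⟨⟨!![s⁻¹, -W 0 * s⁻¹; 0, s], by rw [Matrix.det_fin_two_of]; field_simp; ring⟩, rfl⟩
  have M00 : (M : Mat) 0 0 = s⁻¹ := by rw [hM]; rfl
  have M01 : (M : Mat) 0 1 = -W 0 * s⁻¹ := by rw [hM]; rfl
  have M10 : (M : Mat) 1 0 = 0 := by rw [hM]; rfl
  have M11 : (M : Mat) 1 1 = s := by rw [hM]; rfl
  have hdM : ∀ y, den M y = s := fun y => by
    unfold den
    rw [M10, M11]
    ring
  have hnq : ∀ z, nq (mu0 W) z = mob M (W z) := by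
    intro z
    have h1 := hform z
    have h2 : W z - W 0 = s ^ 2 * nq (mu0 W) z := by rw [hs, h1]; ring
    unfold mob
    rw [M00, M01, M10, M11, zero_mul, zero_add, eq_div_iff hs0]
    field_simp
    linear_combination -h2
  -- conjugation by `M`
  have hcjM : ∀ (C : SL) (y : ℂ), den (M * C * M⁻¹) (mob M y) = den C y ∧
      (den C y ≠ 0 → mob (M * C * M⁻¹) (mob M y) = mob M (mob C y)) := by
    intro C y
    have e1 := hSUB.2.2.2.1 (M * C * M⁻¹) M y (by rw [hdM]; exact hs0)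
    have e2 : M * C * M⁻¹ * M = M * C := inv_mul_cancel_right _ _
    rw [e2] at e1
    have e3 : den (M * C) y = s * den C y := by
      unfold den
      rw [Matrix.SpecialLinearGroup.coe_mul, Matrix.mul_apply, Matrix.mul_apply,
        Fin.sum_univ_two, Fin.sum_univ_two, M10, M11]
      ring
    refine ⟨?_, fun hC => ?_⟩
    · have e4 := e1.2
      rw [e3, hdM] at e4
      have e5 : s * (den (M * C * M⁻¹) (mob M y) - den C y) = 0 := by linear_combination -e4
      rcases mul_eq_zero.1 e5 with h | h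
      · exact absurd h hs0
      · exact sub_eq_zero.1 h
    · rw [← e1.1]
      exact (hSUB.2.2.2.1 M C y hC).1
  refine ⟨M * B, σ, mu0 W, k, hb.fs, hb.k0, hb.k1, hbel, ?_, ?_, ?_⟩
  · intro z hz
    unfold mu0
    split_ifs with h
    · rfl
    · rw [Pool.Agent.Helper68.QC.dzb_holo (hholo z (lt_of_le_of_ne hz (Ne.symm h))), zero_div]
  · intro γ
    refine hINB W (σ γ) (cj B ρ γ) hC1 (fun z hz => (hdil z hz).1) (fun z hz hd => ?_)
      (fun z hd => ?_)
    · exact mob_offS (hb.fs.su γ) hz hd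
    · have h1 := hb.eqv γ z
      exact ⟨fun h0 => hd (h1.1.2 h0), h1.2 hd⟩
  · refine hTMI (SurfaceGroup g) σ (cj (M * B) ρ) (nq (mu0 W)) (nq (mu0 W)).isHomeomorph
      (fun γ z => ?_)
    have hC : cj (M * B) ρ γ = M * cj B ρ γ * M⁻¹ := by
      change (M * B) * ρ γ * (M * B)⁻¹ = M * (B * ρ γ * B⁻¹) * M⁻¹
      group
    have h1 := hb.eqv γ z
    have h2 := hcjM (cj B ρ γ) (W z)
    rw [hC, hnq z, hnq, h2.1]
    refine ⟨h1.1, fun hd => ?_⟩
    rw [h1.2 hd, h2.2 (fun h0 => hd (h1.1.2 h0))]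

end Pool.Agent.Helper70.QL
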